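import Pool.Agent.H281G.Forest

/-!
# MP_54818a_co: admissible weights which are constant on a circuit that meets all circuits

Let `C` be a circuit of a finite multigraph `G` and `p` an admissible weighting of the edges with the
constant value `c` on `C` and even values off `C`. If `C` has a vertex in common with every circuit
of `G` and no edge is heavier than `2 c`, or if every edge has an end on `C` and the vertices of `C`
have degree at most three, then `(G, p)` has a faithful circuit cover.

For two even subgraphs `A`, `B` the theorem `four_of_flows` of the starting library gives circuits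
that cover the edges of `C` once and the other edges of `A` and `B` twice. It is applied `c` times, to
the coordinates of vectors `φ e` in `K ^ c`, `K` the field with four elements, with exactly `p e / 2`
nonzero coordinates and with Kirchhoff's law at the vertices off `C`; these are built vertex by
vertex.
-/

set_option autoImplicit false
set_option linter.unusedSectionVars false

open Finset

namespace Pool.Agent.Results.MP_54818a_co.ForestOffCircuit

open Pool.Agent.Helper347.Sab

variable {V E : Type} [Fintype V] [DecidableEq V] [Fintype E] [DecidableEq E]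

/-- The edge cut of `X`: the edges with exactly one end in `X`. -/
def cut (G : MGraph V E) (X : Finset V) : Finset E :=
  univ.filter fun e => (∃ v ∈ G.ends e, v ∈ X) ∧ ∃ v ∈ G.ends e, v ∉ X

/-- `p` is admissible: every edge cut has even weight, and no edge of an edge cut is heavier than
half of the cut. -/
def Admissible (G : MGraph V E) (p : E → ℕ) : Prop :=
  ∀ X : Finset V, Even (∑ f ∈ cut G X, p f) ∧ ∀ e ∈ cut G X, 2 * p e ≤ ∑ f ∈ cut G X, p f

/-- A faithful cover: some circuits, with multiplicities, cover every edge `e` exactly `p e`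
times. -/
def HasFaithfulCover (G : MGraph V E) (p : E → ℕ) : Prop :=
  ∃ F : Multiset (Finset E), (∀ X ∈ F, IsCircuit G X) ∧ ∀ e, F.countP (fun X => e ∈ X) = p e

/-- The vertex `v` lies on the subgraph with edge set `C`. -/
def On (G : MGraph V E) (C : Finset E) (v : V) : Prop := dg G C v ≠ 0

theorem cut_vertex (G : MGraph V E) (v : V) :
    cut G {v} = univ.filter fun f => v ∈ G.ends f := by
  ext e
  unfold cut
  rw [mem_filter, mem_filter]
  constructor
  · rintro ⟨_, ⟨u, hu, huv⟩, _⟩
    rw [mem_singleton] at huv
    exact ⟨mem_univ _, huv ▸ hu⟩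
  · rintro ⟨_, h⟩
    obtain ⟨a, b, hab, hends⟩ := exists_ends G e
    refine ⟨mem_univ _, ⟨v, h, mem_singleton_self v⟩, ?_⟩
    have hv := h
    rw [hends, Sym2.mem_iff] at hv
    rcases hv with rfl | rfl
    · exact ⟨b, by rw [hends]; simp, fun h => hab (mem_singleton.1 h).symm⟩
    · exact ⟨a, by rw [hends]; simp, fun h => hab (mem_singleton.1 h)⟩

theorem vertex_of_adm (G : MGraph V E) (p : E → ℕ) (h : Admissible G p) (v : V) (e : E)
    (he : v ∈ G.ends e) : 2 * p e ≤ ∑ f ∈ univ.filter (fun f => v ∈ G.ends f), p f := by
  have h1 := (h {v}).2 e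
  rw [cut_vertex] at h1
  exact h1 (by rw [mem_filter]; exact ⟨mem_univ _, he⟩)

theorem bound_of_dominating (G : MGraph V E) (C : Finset E) (hC : IsCircuit G C) (p : E → ℕ)
    (c : ℕ) (hc : ∀ e ∈ C, p e = c) (hdom : ∀ e, ∃ v ∈ G.ends e, On G C v)
    (hdeg : ∀ v, On G C v → dg G univ v ≤ 3) (hadm : Admissible G p) (e : E) : p e ≤ 2 * c := by
  classical
  by_cases heC : e ∈ C
  · rw [hc e heC]; omega
  · obtain ⟨v, hv, hon⟩ := hdom e
    have h1 := vertex_of_adm G p hadm v e hv
    have h2 : dg G C v = 2 := (hC.2.1 v).resolve_left hon
    have h3 := hdeg v hon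
    have h4 : (univ.filter fun f => v ∈ G.ends f) = insert e (C.filter fun f => v ∈ G.ends f) := by
      symm
      refine eq_of_subset_of_card_le ?_ ?_
      · intro f hf
        rw [mem_insert, mem_filter] at hf
        rw [mem_filter]
        rcases hf with rfl | hf
        · exact ⟨mem_univ _, hv⟩
        · exact ⟨mem_univ _, hf.2⟩
      · rw [card_insert_of_notMem (fun h => heC (mem_filter.1 h).1)]
        unfold dg at h2 h3
        omega
    rw [h4, sum_insert (fun h => heC (mem_filter.1 h).1)] at h1
    have h5 : ∑ f ∈ C.filter (fun f => v ∈ G.ends f), p f = 2 * c := by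
      rw [sum_congr rfl fun f hf => hc f (mem_filter.1 hf).1, sum_const, smul_eq_mul]
      unfold dg at h2
      rw [h2]
    omega

/-- Let `C` be a circuit of `G` and `p` an admissible weighting with the constant value `c` on `C` and
even values off `C`. If `C` meets all circuits of `G` and `p ≤ 2 c`, or if every edge has an end on
`C` and the vertices of `C` have degree at most three, then `(G, p)` has a faithful cover. -/
theorem result {V E : Type} [Fintype V] [DecidableEq V] [Fintype E] [DecidableEq E]
    (G : MGraph V E) (C : Finset E) (hC : IsCircuit G C) (p : E → ℕ) (hadm : Admissible G p)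
    (c : ℕ) (hc : ∀ e ∈ C, p e = c) (hev : ∀ e, e ∉ C → Even (p e))
    (h : ((∀ D, IsCircuit G D → ∃ v, On G D v ∧ On G C v) ∧ (∀ e, p e ≤ 2 * c)) ∨
      ((∀ e, ∃ v ∈ G.ends e, On G C v) ∧ ∀ v, On G C v → dg G univ v ≤ 3)) :
    HasFaithfulCover G p := by
  have hmeet : ∀ D, IsCircuit G D → ∃ v, dg G D v ≠ 0 ∧ dg G C v ≠ 0 := by
    rcases h with h | h
    · exact h.1
    · intro D hD
      obtain ⟨e, he⟩ := hD.1
      obtain ⟨v, hv, hon⟩ := h.1 e
      refine ⟨v, ?_, hon⟩
      have := dg_pos_of_mem (G := G) he hv
      omega
  have hle : ∀ e, p e ≤ 2 * c := by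
    rcases h with h | h
    · exact h.2
    · exact bound_of_dominating G C hC p c hc h.1 h.2 hadm
  exact Pool.Agent.H281G.forest_cover G C hC hmeet c p hc hev (fun e _ => hle e)
    (fun v _ e he => vertex_of_adm G p hadm v e he)

end Pool.Agent.Results.MP_54818a_co.ForestOffCircuit
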